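import Pool.Agent.Lib.GSR5.Base
import Pool.Agent.Lib.FracGS.Spec

/-!
# Integral tools for graphs without an induced tree: definitions

All graphs are finite.  The forbidden tree is `pat par n`.  Nothing is assumed about cliques: the
only inputs are that the fractional chromatic number is bounded on all induced subgraphs and that
the tree is not induced.
-/

set_option autoImplicit false

namespace Pool.Agent.Lib.GIT

open Finset Classical
open Pool.Agent.Lib.FracGS (nb wnb om pat)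
open Pool.Agent.Lib.GSR3 (Stab)
open Pool.Agent.Lib.GSR5 (Law pr)

/-- For all weights there is a stable set of relative weight at least `1 / C`. -/
def Frac {V : Type} [Fintype V] (G : SimpleGraph V) (C : ℝ) : Prop :=
  ∀ w : V → ℝ, (∀ v, 0 ≤ w v) → ∃ I : Finset V, Stab G I ∧ ∑ v, w v ≤ C * ∑ v ∈ I, w v

/-- The induced graph on `A` is `n`-colourable. -/
def Col {V : Type} (G : SimpleGraph V) (A : Finset V) (n : ℕ) : Prop :=
  ∃ f : V → ℕ, (∀ v ∈ A, f v < n) ∧ ∀ u ∈ A, ∀ v ∈ A, G.Adj u v → f u ≠ f v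

/-- The zero-infinity law: for all `S` the vertices outside `S` with at least one and at most `M`
neighbours in `S` induce a `C`-colourable graph. -/
def ZI {V : Type} [Fintype V] (G : SimpleGraph V) (M C : ℕ) : Prop :=
  ∀ S : Finset V, Col G (Finset.univ.filter (fun v => v ∉ S ∧ 1 ≤ (nb G S v).card ∧
    (nb G S v).card ≤ M)) C

/-- No set of `D` or more vertices is shattered by the neighbourhoods. -/
def VC {V : Type} (G : SimpleGraph V) (D : ℕ) : Prop :=
  ∀ U : Finset V, D ≤ U.card → ∃ T, T ⊆ U ∧ ∀ v, nb G U v ≠ T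

/-- Adjacency in the tree with parent function `par`. -/
def TA (par : ℕ → ℕ) (a c : ℕ) : Prop := (1 ≤ a ∧ par a = c) ∨ (1 ≤ c ∧ par c = a)

/-- The transition probabilities for the symmetric weights `w`. -/
noncomputable def kr {V : Type} [Fintype V] (w : V → V → ℝ) (u v : V) : ℝ :=
  w u v / ∑ v', w u v'

/-- The value of `φ` at the node `j`. -/
def ev {V : Type} {n : ℕ} (φ : Fin (n + 1) → V) (j : ℕ) : V :=
  φ ⟨min j n, Nat.lt_succ_of_le (min_le_right j n)⟩

/-- The law of the random homomorphism of the tree with nodes `0, ..., n`. -/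
noncomputable def hl {V : Type} [Fintype V] (w : V → V → ℝ) (par : ℕ → ℕ) :
    (n : ℕ) → (Fin (n + 1) → V) → ℝ
  | 0, φ => ∑ v, w (ev φ 0) v
  | n + 1, φ => hl w par n (fun i => φ i.castSucc) * kr w (ev φ (par (n + 1))) (ev φ (n + 1))

/-- Edge weights between the stable sets `J` and `I` with small atoms and small captures. -/
structure EW {V : Type} [Fintype V] (G : SimpleGraph V) (J I : Finset V) (w : V → V → ℝ)
    (e : ℝ) : Prop where
  nn : ∀ x y, 0 ≤ w x y
  adj : ∀ x y, w x y ≠ 0 → x ∈ J ∧ y ∈ I ∧ G.Adj x y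
  ne : ∃ x y, w x y ≠ 0
  sJ : Stab G J
  sI : Stab G I
  dis : Disjoint J I
  atm : ∀ x y, w x y ≤ e * ∑ y', w x y'
  cap : ∀ q ∈ I, ∀ y ∈ I, q ≠ y →
    ∑ x ∈ Finset.univ.filter (fun x => G.Adj x q), w x y ≤ e * ∑ x, w x y

/-- Edge weights inside a window of the measure `r`: `x ∈ J`, `y ∈ I`. -/
structure EW2 {V : Type} [Fintype V] (G : SimpleGraph V) (J I : Finset V) (w : V → V → ℝ)
    (r : V → ℝ) (a K K' ε δ α : ℝ) : Prop where
  nn : ∀ x y, 0 ≤ w x y
  adj : ∀ x y, w x y ≠ 0 → x ∈ J ∧ y ∈ I ∧ G.Adj x y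
  ne : ∃ x y, w x y ≠ 0
  sJ : Stab G J
  sI : Stab G I
  dis : Disjoint J I
  r0 : ∀ v, 0 ≤ r v
  win : ∀ x ∈ J, a ≤ wnb G Finset.univ r x ∧ wnb G Finset.univ r x ≤ K * a
  ra : ∀ y, r y ≤ α * a
  atm : ∀ x ∈ J, ∀ y, w x y ≤ K' * (r y / wnb G Finset.univ r x) * ∑ y', w x y'
  cap : ∀ x0 ∈ J, ∀ y ∈ I,
    ∑ x ∈ J.filter (fun x => ε * a ≤ om G Finset.univ r x x0), w x y ≤ δ * ∑ x, w x y

/-- A clone system for `S`: laws on the non-neighbours in `S`; for every vertex `x` all but at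
most `L` of its neighbours `y` in `S` are captured by `x`. -/
structure Cln {V : Type} [Fintype V] (G : SimpleGraph V) (S : Finset V) (d : ℝ) (L : ℕ)
    (l : V → V → ℝ) : Prop where
  nn : ∀ y q, 0 ≤ l y q
  mem : ∀ y q, l y q ≠ 0 → q ∈ S ∧ q ≠ y ∧ ¬ G.Adj q y
  one : ∀ y, ∑ q, l y q ≤ 1
  big : ∀ x, ((nb G S x).filter (fun y => wnb G Finset.univ (l y) x ≤ d)).card ≤ L

/-- A bounded clone system for `S`. -/
structure ClnQ {V : Type} (G : SimpleGraph V) (S : Finset V) (n L : ℕ)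
    (Q : V → Finset V) : Prop where
  mem : ∀ y, ∀ q ∈ Q y, q ∈ S ∧ q ≠ y ∧ ¬ G.Adj q y
  card : ∀ y, (Q y).card ≤ n
  big : ∀ x, ((nb G S x).filter (fun y => ∀ q ∈ Q y, ¬ G.Adj x q)).card ≤ L

/-- `S` has a colouring with `r` colours for which no `N(x) ∩ S` with more than `L` elements is
monochromatic. -/
def Poly {V : Type} (G : SimpleGraph V) (S : Finset V) (r L : ℕ) : Prop :=
  ∃ φ : V → ℕ, (∀ y ∈ S, φ y < r) ∧ ∀ x, L < (nb G S x).card →
    ∃ y ∈ nb G S x, ∃ y' ∈ nb G S x, φ y ≠ φ y'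

/-- A cluster system for the window `A` of the measure `r`. -/
structure Clu {V : Type} [Fintype V] (G : SimpleGraph V) (A : Finset V) (r : V → ℝ)
    (a η ε' : ℝ) (n0 : ℕ) (Cap : V → Finset V) : Prop where
  sub : ∀ y, ∀ x ∈ Cap y, x ∈ A ∧ G.Adj x y
  most : ∀ x ∈ A, ∑ y ∈ (nb G Finset.univ x).filter (fun y => x ∉ Cap y), r y ≤
    η * wnb G Finset.univ r x
  few : ∀ y, ∀ T, T ⊆ Cap y → (∀ x ∈ T, ∀ x' ∈ T, x ≠ x' → om G Finset.univ r x x' < ε' * a) →
    T.card ≤ n0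

end Pool.Agent.Lib.GIT
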