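import Pool.Agent.Lib.GIT.Stmts
import Pool.Agent.Lib.FGF.Main

/-!
# Module `FrC`: the fractional theorem in the form `Frac`
-/

set_option autoImplicit false

namespace Pool.Agent.Lib.GIT

open Finset Classical
open Pool.Agent.Lib.FracGS (nb wnb om pat)
open Pool.Agent.Lib.GSR3 (Stab)

namespace FrCAux

/-- The parent function, made total. -/
def pp (par : ℕ → ℕ) (j : ℕ) : ℕ := if j = 0 then 0 else par j

lemma pp_le {par : ℕ → ℕ} (hpar : ∀ j, 1 ≤ j → par j < j) (j : ℕ) : pp par j ≤ j := by
  unfold pp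
  split_ifs with h
  · omega
  · exact (hpar j (by omega)).le

lemma it_le {par : ℕ → ℕ} (hpar : ∀ j, 1 ≤ j → par j < j) (k : ℕ) :
    ∀ j, (pp par)^[k] j ≤ j := by
  induction k with
  | zero => intro j; simp
  | succ k ih =>
    intro j
    rw [Function.iterate_succ_apply]
    exact (ih _).trans (pp_le hpar j)

/-- The descendants of `j`. -/
def De (par : ℕ → ℕ) (j v : ℕ) : Prop := ∃ k, (pp par)^[k] v = j

lemma de_up {par : ℕ → ℕ} {j v u : ℕ} (hu : pp par v = u) (h : De par j v) (hne : v ≠ j) :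
    De par j u := by
  obtain ⟨k, hk⟩ := h
  cases k with
  | zero => exact absurd hk hne
  | succ k =>
    refine ⟨k, ?_⟩
    rw [Function.iterate_succ_apply, hu] at hk
    exact hk

lemma de_down {par : ℕ → ℕ} {j v u : ℕ} (hu : pp par u = v) (h : De par j v) :
    De par j u := by
  obtain ⟨k, hk⟩ := h
  refine ⟨k + 1, ?_⟩
  rw [Function.iterate_succ_apply, hu]
  exact hk

lemma walk_de {par : ℕ → ℕ} {n : ℕ} {i j : Fin n} (hij : i < j) (hp : par j.1 = i.1) :
    ∀ u v : Fin n, ((pat par n).deleteEdges {s(i, j)}).Walk u v → De par j.1 u.1 → De par j.1 v.1 := by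
  intro u v p
  induction p with
  | nil => exact fun h => h
  | @cons a b c hab p ih =>
    intro ha
    apply ih
    rw [SimpleGraph.deleteEdges_adj] at hab
    obtain ⟨hab, hne⟩ := hab
    rcases hab with ⟨hlt, hpar⟩ | ⟨hlt, hpar⟩
    · -- `a < b`, `par b = a`
      apply de_down (v := a.1) _ ha
      unfold pp
      rw [if_neg]
      · exact hpar
      · have : a.1 < b.1 := hlt
        omega
    · apply de_up (v := a.1) _ ha
      · intro h
        apply hne
        have haj : a = j := Fin.ext h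
        subst haj
        have hbi : b = i := Fin.ext (by rw [← hpar, hp])
        subst hbi
        simp [Sym2.eq_swap]
      · unfold pp
        rw [if_neg]
        · exact hpar
        · have : b.1 < a.1 := hlt
          omega

lemma acyclic {par : ℕ → ℕ} (n : ℕ) (hpar : ∀ j, 1 ≤ j → par j < j) :
    (pat par n).IsAcyclic := by
  have key : ∀ i j : Fin n, i < j → par j.1 = i.1 → (pat par n).IsBridge s(i, j) := by
    intro i j hij hp
    rw [SimpleGraph.isBridge_iff]
    intro h
    obtain ⟨p⟩ := h.symm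
    have h1 := walk_de hij hp j i p ⟨0, rfl⟩
    obtain ⟨k, hk⟩ := h1
    have h2 := it_le hpar k i.1
    have h3 : i.1 < j.1 := hij
    omega
  rw [SimpleGraph.isAcyclic_iff_forall_adj_isBridge]
  intro v w h
  rcases h with ⟨hlt, hp⟩ | ⟨hlt, hp⟩
  · exact key v w hlt hp
  · rw [Sym2.eq_swap]
    exact key w v hlt hp

end FrCAux

theorem stFrC : StFrC := by
  intro par n k hpar
  obtain ⟨C, hC, h⟩ := FGF.fractional (Fin n) (pat par n) (FrCAux.acyclic n hpar) k
  refine ⟨C, hC, ?_⟩
  intro V _ G hG hE w hw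
  obtain ⟨I, -, hI, hle⟩ := h V G hG hE w hw
  exact ⟨I, hI, hle⟩

end Pool.Agent.Lib.GIT
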