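import Pool.Agent.Lib.GIT.Stmts

/-!
# Integral tools for graphs without an induced tree: the law of the random homomorphism
-/

set_option autoImplicit false

namespace Pool.Agent.Lib.GIT

open Finset Classical

namespace HLAux

variable {V : Type} [Fintype V]

lemma sum_snoc {n : ℕ} (F : (Fin (n + 2) → V) → ℝ) :
    ∑ φ : Fin (n + 2) → V, F φ =
      ∑ φ' : Fin (n + 1) → V, ∑ v : V, F (Fin.snoc (α := fun _ => V) φ' v) := by
  rw [← Equiv.sum_comp (Fin.snocEquiv (n := n + 1) (fun _ => V)) F, Fintype.sum_prod_type_right]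
  rfl

lemma ev_snoc_lt {n : ℕ} (φ' : Fin (n + 1) → V) (v : V) (j : ℕ) (hj : j ≤ n) :
    ev (Fin.snoc (α := fun _ => V) φ' v : Fin (n + 2) → V) j = ev φ' j := by
  unfold ev
  have h : (⟨min j (n + 1), Nat.lt_succ_of_le (min_le_right j (n + 1))⟩ : Fin (n + 2)) =
      Fin.castSucc ⟨min j n, Nat.lt_succ_of_le (min_le_right j n)⟩ := by
    apply Fin.ext
    simp only [Fin.val_castSucc]
    omega
  rw [h, Fin.snoc_castSucc]

lemma ev_snoc_last {n : ℕ} (φ' : Fin (n + 1) → V) (v : V) :
    ev (Fin.snoc (α := fun _ => V) φ' v : Fin (n + 2) → V) (n + 1) = v := by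
  unfold ev
  have h : (⟨min (n + 1) (n + 1), Nat.lt_succ_of_le (min_le_right (n + 1) (n + 1))⟩ :
      Fin (n + 2)) = Fin.last (n + 1) := by
    apply Fin.ext
    simp
  rw [h, Fin.snoc_last]

lemma hl_snoc (w : V → V → ℝ) (par : ℕ → ℕ) {n : ℕ} (hp : par (n + 1) ≤ n)
    (φ' : Fin (n + 1) → V) (v : V) :
    hl w par (n + 1) (Fin.snoc (α := fun _ => V) φ' v) =
      hl w par n φ' * kr w (ev φ' (par (n + 1))) v := by
  show hl w par n (fun i => (Fin.snoc (α := fun _ => V) φ' v : Fin (n + 2) → V) i.castSucc) *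
    kr w (ev (Fin.snoc (α := fun _ => V) φ' v : Fin (n + 2) → V) (par (n + 1)))
      (ev (Fin.snoc (α := fun _ => V) φ' v : Fin (n + 2) → V) (n + 1)) = _
  rw [ev_snoc_last, ev_snoc_lt _ _ _ hp]
  congr 2
  funext i
  rw [Fin.snoc_castSucc]

section

variable (w : V → V → ℝ) (h0 : ∀ u v, 0 ≤ w u v)

include h0

lemma kr_nonneg (u v : V) : 0 ≤ kr w u v :=
  div_nonneg (h0 u v) (Finset.sum_nonneg fun v' _ => h0 u v')

lemma kr_sum (u : V) (hu : ∑ v, w u v ≠ 0) : ∑ v, kr w u v = 1 := by
  unfold kr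
  rw [← Finset.sum_div, div_self hu]

lemma W_mul_kr (u v : V) : (∑ v', w u v') * kr w u v = w u v := by
  unfold kr
  by_cases hu : ∑ v', w u v' = 0
  · rw [hu, zero_mul]
    have := (Finset.sum_eq_zero_iff_of_nonneg (fun v' _ => h0 u v')).1 hu v (Finset.mem_univ v)
    exact this.symm
  · field_simp

lemma W_ne {u v : V} (h : w u v ≠ 0) : ∑ v', w u v' ≠ 0 := by
  intro hu
  exact h ((Finset.sum_eq_zero_iff_of_nonneg (fun v' _ => h0 u v')).1 hu v (Finset.mem_univ v))

variable (par : ℕ → ℕ) (hpar : ∀ j, 1 ≤ j → par j < j)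

lemma hl_nonneg (n : ℕ) (φ : Fin (n + 1) → V) : 0 ≤ hl w par n φ := by
  induction n with
  | zero => exact Finset.sum_nonneg fun v _ => h0 _ v
  | succ n ih => exact mul_nonneg (ih _) (kr_nonneg w h0 _ _)

omit h0 in
/-- every assignment is an extension -/
lemma exists_snoc {n : ℕ} (φ : Fin (n + 2) → V) :
    ∃ φ' : Fin (n + 1) → V, ∃ v : V, φ = Fin.snoc (α := fun _ => V) φ' v :=
  ⟨Fin.init φ, φ (Fin.last _), (Fin.snoc_init_self φ).symm⟩

include hpar in
lemma supp (hs : ∀ u v, w u v = w v u) (n : ℕ) : ∀ φ : Fin (n + 1) → V, hl w par n φ ≠ 0 →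
    (∀ j, 1 ≤ j → j ≤ n → w (ev φ (par j)) (ev φ j) ≠ 0) ∧ ∑ v, w (ev φ 0) v ≠ 0 := by
  induction n with
  | zero =>
    intro φ h
    refine ⟨fun j h1 h2 => by omega, h⟩
  | succ n ih =>
    intro φ h
    obtain ⟨φ', v, rfl⟩ := exists_snoc φ
    have hp : par (n + 1) ≤ n := Nat.lt_succ_iff.1 (hpar (n + 1) (by omega))
    rw [hl_snoc w par hp] at h
    obtain ⟨h1, h2⟩ := mul_ne_zero_iff.1 h
    obtain ⟨i1, i2⟩ := ih φ' h1
    refine ⟨?_, ?_⟩
    · intro j hj hjn
      rcases Nat.lt_or_ge n j with hlt | hge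
      · have hj' : j = n + 1 := by omega
        subst hj'
        rw [ev_snoc_last, ev_snoc_lt _ _ _ hp]
        intro h0'
        apply h2
        unfold kr
        rw [h0', zero_div]
      · have hpj : par j ≤ n := by have := hpar j hj; omega
        rw [ev_snoc_lt _ _ _ hge, ev_snoc_lt _ _ _ hpj]
        exact i1 j hj hge
    · rw [ev_snoc_lt _ _ _ (Nat.zero_le n)]
      exact i2

include hpar in
lemma W_supp (hs : ∀ u v, w u v = w v u) (n : ℕ) (φ : Fin (n + 1) → V) (h : hl w par n φ ≠ 0)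
    (j : ℕ) (hj : j ≤ n) : ∑ v, w (ev φ j) v ≠ 0 := by
  obtain ⟨h1, h2⟩ := supp w h0 par hpar hs n φ h
  rcases Nat.eq_zero_or_pos j with rfl | hpos
  · exact h2
  · have := h1 j hpos hj
    rw [hs] at this
    exact W_ne w h0 this

include hpar in
/-- summing out the last leaf -/
lemma leaf (hs : ∀ u v, w u v = w v u) (n : ℕ) (Gf : (Fin (n + 1) → V) → ℝ) :
    ∑ φ' : Fin (n + 1) → V, ∑ v : V, hl w par n φ' * kr w (ev φ' (par (n + 1))) v * Gf φ' =
      ∑ φ' : Fin (n + 1) → V, hl w par n φ' * Gf φ' := by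
  have hp : par (n + 1) ≤ n := Nat.lt_succ_iff.1 (hpar (n + 1) (by omega))
  refine Finset.sum_congr rfl fun φ' _ => ?_
  by_cases h : hl w par n φ' = 0
  · simp [h]
  · have h1 := kr_sum w h0 _ (W_supp w h0 par hpar hs n φ' h _ hp)
    calc ∑ v : V, hl w par n φ' * kr w (ev φ' (par (n + 1))) v * Gf φ'
        = (∑ v : V, kr w (ev φ' (par (n + 1))) v) * (hl w par n φ' * Gf φ') := by
          rw [Finset.sum_mul]
          refine Finset.sum_congr rfl fun v _ => by ring
      _ = hl w par n φ' * Gf φ' := by rw [h1, one_mul]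

include hpar in
/-- the general formula: functions of the old nodes and of the leaf -/
lemma sum_succ (n : ℕ) (F : (Fin (n + 2) → V) → ℝ) :
    ∑ φ : Fin (n + 2) → V, hl w par (n + 1) φ * F φ =
      ∑ φ' : Fin (n + 1) → V, hl w par n φ' *
        ∑ v : V, kr w (ev φ' (par (n + 1))) v * F (Fin.snoc (α := fun _ => V) φ' v) := by
  have hp : par (n + 1) ≤ n := Nat.lt_succ_iff.1 (hpar (n + 1) (by omega))
  rw [sum_snoc]
  refine Finset.sum_congr rfl fun φ' _ => ?_
  rw [Finset.mul_sum]
  refine Finset.sum_congr rfl fun v _ => ?_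
  rw [hl_snoc w par hp]
  ring

include hpar in
/-- functions of the old nodes -/
lemma sum_old (hs : ∀ u v, w u v = w v u) (n : ℕ) (F : (Fin (n + 2) → V) → ℝ)
    (Gf : (Fin (n + 1) → V) → ℝ)
    (hF : ∀ φ' v, F (Fin.snoc (α := fun _ => V) φ' v) = Gf φ') :
    ∑ φ : Fin (n + 2) → V, hl w par (n + 1) φ * F φ =
      ∑ φ' : Fin (n + 1) → V, hl w par n φ' * Gf φ' := by
  rw [sum_succ w h0 par hpar, ← leaf w h0 par hpar hs n Gf]
  refine Finset.sum_congr rfl fun φ' _ => ?_
  rw [Finset.mul_sum]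
  refine Finset.sum_congr rfl fun v _ => ?_
  rw [hF]
  ring

/-- the step of the reversible chain -/
lemma rev (hs : ∀ u v, w u v = w v u) (F : V → V → ℝ) :
    ∑ u, (∑ v', w u v') * ∑ v, kr w u v * F u v = ∑ u, ∑ v, w u v * F u v := by
  refine Finset.sum_congr rfl fun u _ => ?_
  rw [Finset.mul_sum]
  refine Finset.sum_congr rfl fun v _ => ?_
  rw [← mul_assoc, W_mul_kr w h0]

include hpar in
lemma marg (hs : ∀ u v, w u v = w v u) (n : ℕ) : ∀ j ≤ n, ∀ F : V → ℝ,
    ∑ φ : Fin (n + 1) → V, hl w par n φ * F (ev φ j) = ∑ u, (∑ v, w u v) * F u := by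
  induction n with
  | zero =>
    intro j hj F
    have hj0 : j = 0 := by omega
    subst hj0
    rw [← Equiv.sum_comp (Equiv.funUnique (Fin 1) V).symm]
    rfl
  | succ n ih =>
    intro j hj F
    have hp : par (n + 1) ≤ n := Nat.lt_succ_iff.1 (hpar (n + 1) (by omega))
    rcases Nat.lt_or_ge n j with hlt | hge
    · have hj' : j = n + 1 := by omega
      subst hj'
      rw [sum_succ w h0 par hpar]
      simp only [ev_snoc_last]
      have := ih (par (n + 1)) hp (fun u => ∑ v, kr w u v * F v)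
      rw [this, rev w h0 hs (fun _ v => F v), Finset.sum_comm]
      refine Finset.sum_congr rfl fun v _ => ?_
      rw [Finset.sum_mul]
      refine Finset.sum_congr rfl fun u _ => ?_
      rw [hs]
    · rw [sum_old w h0 par hpar hs n (fun φ => F (ev φ j)) (fun φ' => F (ev φ' j))]
      · exact ih j hge F
      · intro φ' v
        show F (ev _ j) = _
        rw [ev_snoc_lt _ _ _ hge]

include hpar in
lemma item6 (hs : ∀ u v, w u v = w v u) (n : ℕ) : ∀ a ≤ n, ∀ b ≤ n, a ≠ b → ∃ c ≤ n, c ≠ a ∧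
    TA par a c ∧ ∀ g : V → V → V → ℝ,
      ∑ φ : Fin (n + 1) → V, hl w par n φ * g (ev φ b) (ev φ c) (ev φ a) =
        ∑ φ : Fin (n + 1) → V, hl w par n φ *
          ∑ v, kr w (ev φ c) v * g (ev φ b) (ev φ c) v := by
  induction n with
  | zero =>
    intro a ha b hb hab
    omega
  | succ n ih =>
    intro a ha b hb hab
    have hp : par (n + 1) ≤ n := Nat.lt_succ_iff.1 (hpar (n + 1) (by omega))
    rcases Nat.lt_or_ge n a with hna | han
    · -- `a` is the leaf
      have ha' : a = n + 1 := by omega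
      subst ha'
      have hbn : b ≤ n := by omega
      refine ⟨par (n + 1), by omega, by omega, Or.inl ⟨by omega, rfl⟩, ?_⟩
      intro g
      rw [sum_old w h0 par hpar hs n
        (fun φ => ∑ v, kr w (ev φ (par (n + 1))) v * g (ev φ b) (ev φ (par (n + 1))) v)
        (fun φ' => ∑ v, kr w (ev φ' (par (n + 1))) v * g (ev φ' b) (ev φ' (par (n + 1))) v)]
      · rw [sum_succ w h0 par hpar]
        refine Finset.sum_congr rfl fun φ' _ => ?_
        congr 1
        refine Finset.sum_congr rfl fun v _ => ?_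
        rw [ev_snoc_last, ev_snoc_lt _ _ _ hp, ev_snoc_lt _ _ _ hbn]
      · intro φ' v
        show ∑ v', kr w (ev _ _) v' * g (ev _ _) (ev _ _) v' = _
        rw [ev_snoc_lt _ _ _ hp, ev_snoc_lt _ _ _ hbn]
    · rcases Nat.lt_or_ge n b with hnb | hbn
      · have hb' : b = n + 1 := by omega
        subst hb'
        by_cases hap : a = par (n + 1)
        · -- `a` is the parent of the leaf `b`
          refine ⟨n + 1, le_refl _, by omega, Or.inr ⟨by omega, hap.symm⟩, ?_⟩
          intro g
          have e1 : ∑ φ : Fin (n + 2) → V, hl w par (n + 1) φ *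
              g (ev φ (n + 1)) (ev φ (n + 1)) (ev φ a) = ∑ u, ∑ v, w u v * g v v u := by
            rw [sum_succ w h0 par hpar]
            have := marg w h0 par hpar hs n (par (n + 1)) hp (fun u => ∑ v, kr w u v * g v v u)
            rw [rev w h0 hs (fun u v => g v v u)] at this
            rw [← this]
            refine Finset.sum_congr rfl fun φ' _ => ?_
            congr 1
            refine Finset.sum_congr rfl fun v _ => ?_
            rw [ev_snoc_last, ev_snoc_lt _ _ _ han, hap]
          have e2 : ∑ φ : Fin (n + 2) → V, hl w par (n + 1) φ *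
              ∑ v, kr w (ev φ (n + 1)) v * g (ev φ (n + 1)) (ev φ (n + 1)) v =
                ∑ u, ∑ v, w u v * g u u v := by
            have := marg w h0 par hpar hs (n + 1) (n + 1) (le_refl _)
              (fun u => ∑ v, kr w u v * g u u v)
            rw [rev w h0 hs (fun u v => g u u v)] at this
            exact this
          rw [e1, e2, Finset.sum_comm]
          refine Finset.sum_congr rfl fun v _ => ?_
          refine Finset.sum_congr rfl fun u _ => ?_
          rw [hs]
        · -- `b` is the leaf, `a` is not its parent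
          obtain ⟨c, hc, hca, hT, hg⟩ := ih a han (par (n + 1)) hp hap
          refine ⟨c, by omega, hca, hT, ?_⟩
          intro g
          have e1 : ∑ φ : Fin (n + 2) → V, hl w par (n + 1) φ *
              g (ev φ (n + 1)) (ev φ c) (ev φ a) =
                ∑ φ' : Fin (n + 1) → V, hl w par n φ' *
                  ∑ v, kr w (ev φ' (par (n + 1))) v * g v (ev φ' c) (ev φ' a) := by
            rw [sum_succ w h0 par hpar]
            refine Finset.sum_congr rfl fun φ' _ => ?_
            congr 1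
            refine Finset.sum_congr rfl fun v _ => ?_
            rw [ev_snoc_last, ev_snoc_lt _ _ _ han, ev_snoc_lt _ _ _ hc]
          rw [e1, hg (fun z y x => ∑ v, kr w z v * g v y x), sum_succ w h0 par hpar]
          refine Finset.sum_congr rfl fun φ' _ => ?_
          congr 1
          simp only [ev_snoc_last, ev_snoc_lt _ _ _ hc, Finset.mul_sum]
          rw [Finset.sum_comm]
          refine Finset.sum_congr rfl fun v _ => ?_
          refine Finset.sum_congr rfl fun x _ => ?_
          ring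
      · -- both are old
        obtain ⟨c, hc, hca, hT, hg⟩ := ih a han b hbn hab
        refine ⟨c, by omega, hca, hT, ?_⟩
        intro g
        rw [sum_old w h0 par hpar hs n (fun φ => g (ev φ b) (ev φ c) (ev φ a))
            (fun φ' => g (ev φ' b) (ev φ' c) (ev φ' a)),
          sum_old w h0 par hpar hs n
            (fun φ => ∑ v, kr w (ev φ c) v * g (ev φ b) (ev φ c) v)
            (fun φ' => ∑ v, kr w (ev φ' c) v * g (ev φ' b) (ev φ' c) v)]
        · exact hg g
        · intro φ' v
          show ∑ v', kr w (ev _ _) v' * g (ev _ _) (ev _ _) v' = _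
          rw [ev_snoc_lt _ _ _ hc, ev_snoc_lt _ _ _ hbn]
        · intro φ' v
          show g (ev _ _) (ev _ _) (ev _ _) = _
          rw [ev_snoc_lt _ _ _ hc, ev_snoc_lt _ _ _ hbn, ev_snoc_lt _ _ _ han]

end

end HLAux

theorem stHL : StHL := by
  intro V _ w par n hpar h0 hs h1
  refine ⟨HLAux.hl_nonneg w h0 par n, ?_,
    fun φ h => (HLAux.supp w h0 par hpar hs n φ h).1,
    fun φ h => (HLAux.supp w h0 par hpar hs n φ h).2,
    HLAux.marg w h0 par hpar hs n, HLAux.item6 w h0 par hpar hs n⟩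
  have := HLAux.marg w h0 par hpar hs n 0 (Nat.zero_le n) (fun _ => 1)
  simp only [mul_one] at this
  rw [this, h1]

end Pool.Agent.Lib.GIT
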