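import Pool.Agent.Lib.GIT.Stmts
import Pool.Agent.Lib.GSR5.Base
import Pool.Agent.Lib.FracGS.Net
import Pool.Agent.Lib.FracGS.PickZ

/-!
# Few neighbourhoods with large symmetric differences
-/

set_option autoImplicit false

namespace Pool.Agent.Lib.GIT

open Finset Classical
open Pool.Agent.Lib.FracGS (nb wnb om pat bern mem_nb nb_subset sum_bern bern_nonneg)

namespace HauAux

/-- Sauer-Shelah. -/
lemma sauer {α : Type} [DecidableEq α] (𝒜 : Finset (Finset α)) (S : Finset α)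
    (h𝒜 : ∀ A ∈ 𝒜, A ⊆ S) (t : ℕ) (hno : ∀ T, 𝒜.Shatters T → T.card < t) :
    𝒜.card ≤ ∑ k ∈ Finset.range t, (S.card).choose k := by
  refine (Finset.card_le_card_shatterer 𝒜).trans ?_
  have hsub : 𝒜.shatterer ⊆ (Finset.range t).biUnion fun k => Finset.powersetCard k S := by
    intro T hT
    rw [Finset.mem_shatterer] at hT
    obtain ⟨A, hA, hTA⟩ := hT.exists_superset
    exact Finset.mem_biUnion.2 ⟨T.card, Finset.mem_range.2 (hno T hT),
      Finset.mem_powersetCard.2 ⟨hTA.trans (h𝒜 A hA), rfl⟩⟩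
  refine (Finset.card_le_card hsub).trans (Finset.card_biUnion_le.trans ?_)
  exact Finset.sum_le_sum fun k _ => (Finset.card_powersetCard k S).le

lemma sum_choose_le (n t : ℕ) : ∑ k ∈ Finset.range t, n.choose k ≤ (n + 1) ^ t := by
  rw [add_pow]
  refine (Finset.sum_le_sum_of_subset (Finset.range_mono (Nat.le_succ t))).trans ?_
  refine Finset.sum_le_sum fun k hk => ?_
  rw [one_pow, mul_one]
  have h1 : 1 ≤ t.choose k := Nat.choose_pos (Nat.lt_succ_iff.1 (Finset.mem_range.1 hk))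
  calc n.choose k ≤ n ^ k := Nat.choose_le_pow n k
    _ ≤ n ^ k * t.choose k := Nat.le_mul_of_pos_right _ h1

lemma exists_m (K t : ℕ) : ∃ m : ℕ, K * (m + 1) ^ t < 2 ^ m := by
  have h := tendsto_pow_const_div_const_pow_of_one_lt t (show (1 : ℝ) < 2 by norm_num)
  have hK : (0 : ℝ) < 1 / (2 * (K + 1)) := by positivity
  have h1 := (h.eventually (gt_mem_nhds hK)).and (Filter.eventually_ge_atTop 1)
  obtain ⟨n, hn, hn1⟩ := h1.exists
  obtain ⟨m, rfl⟩ : ∃ m, n = m + 1 := ⟨n - 1, by omega⟩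
  refine ⟨m, ?_⟩
  have h2 : (0 : ℝ) < 2 ^ (m + 1) := by positivity
  rw [div_lt_div_iff₀ h2 (by positivity)] at hn
  push_cast at hn
  have h3 : ((K * (m + 1) ^ t : ℕ) : ℝ) < ((2 ^ m : ℕ) : ℝ) := by
    push_cast
    have h4 : (0 : ℝ) ≤ ((m : ℝ) + 1) ^ t := by positivity
    have h5 : (2 : ℝ) ^ (m + 1) = 2 * 2 ^ m := by rw [pow_succ]; ring
    rw [h5] at hn
    nlinarith
  exact_mod_cast h3

/-- Epsilon-nets for families without large shattered sets, for measures of mass at most one. -/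
lemma netFam (m : ℕ) (e : ℝ) (he : 0 < e) : ∃ t : ℕ, ∀ (V : Type) [Fintype V]
    (F : Finset (Finset V)) (l : V → ℝ), (∀ v, 0 ≤ l v) → ∑ v, l v ≤ 1 →
      (∀ T, m ≤ T.card → ¬ F.Shatters T) →
        ∃ Q : Finset V, Q.card ≤ t ∧ ∀ S ∈ F, e ≤ ∑ v ∈ S, l v → ∃ q ∈ Q, q ∈ S := by
  obtain ⟨r, hr1, hnet⟩ := FracGS.stNet m (e / 2) (by positivity)
  have hrpos : 0 < r := by linarith
  refine ⟨⌈r⌉₊ + ⌈4 * r⌉₊, ?_⟩
  intro V _ F l hl hl1 hsh
  set Hv : Finset V := Finset.univ.filter (fun v => 1 / r ≤ l v) with hHv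
  set B0 : Finset V := Finset.univ.filter (fun v => ¬ 1 / r ≤ l v) with hB0
  set ζ : V → ℝ := fun v => if v ∈ B0 then l v else 0 with hζ
  set fam : Finset (Finset V) := (F.image (fun S => S ∩ B0)).filter
    (fun S => e / 2 < ∑ i ∈ S, ζ i) with hfam
  have hz0 : ∀ i, 0 ≤ ζ i := by
    intro i
    simp only [hζ]
    split_ifs
    · exact hl i
    · exact le_rfl
  have hz1 : ∀ i, r * ζ i ≤ 1 := by
    intro i
    simp only [hζ]
    split_ifs with hi
    · have h3 : l i < 1 / r := not_le.mp (Finset.mem_filter.mp hi).2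
      have h5 := mul_le_mul_of_nonneg_left h3.le hrpos.le
      rw [mul_one_div_cancel hrpos.ne'] at h5
      exact h5
    · rw [mul_zero]
      exact zero_le_one
  have hzl : ∀ i, ζ i ≤ l i := by
    intro i
    simp only [hζ]
    split_ifs
    · exact le_rfl
    · exact hl i
  have hU : ∑ i ∈ B0, ζ i ≤ 1 := by
    calc ∑ i ∈ B0, ζ i ≤ ∑ i ∈ B0, l i := Finset.sum_le_sum fun i _ => hzl i
      _ ≤ ∑ i, l i := Finset.sum_le_sum_of_subset_of_nonneg (Finset.subset_univ _)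
          fun i _ _ => hl i
      _ ≤ 1 := hl1
  have hp0 : ∀ i, 0 ≤ r * ζ i := fun i => mul_nonneg hrpos.le (hz0 i)
  have hA := hnet V ζ B0 fam hz0 hz1 hU (by
    intro S hS
    obtain ⟨hS1, hS2⟩ := Finset.mem_filter.mp hS
    obtain ⟨S', _, rfl⟩ := Finset.mem_image.mp hS1
    exact ⟨Finset.inter_subset_right, hS2⟩) (by
    intro T hTB hcard hT
    refine hsh T hcard ?_
    intro R hR
    obtain ⟨S, hS, hTS⟩ := hT hR
    obtain ⟨hS1, _⟩ := Finset.mem_filter.mp hS
    obtain ⟨S', hS', rfl⟩ := Finset.mem_image.mp hS1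
    refine ⟨S', hS', ?_⟩
    rw [← hTS]
    ext u
    simp only [Finset.mem_inter]
    exact ⟨fun h => ⟨h.1, h.2, hTB h.1⟩, fun h => ⟨h.1, h.2.1⟩⟩)
  have hB := FracGS.PickZAux.markov (p := fun i => r * ζ i) hp0 hz1 B0 (r := r) (by
    rw [← Finset.mul_sum]
    calc r * ∑ i ∈ B0, ζ i ≤ r * 1 := mul_le_mul_of_nonneg_left hU hrpos.le
      _ = r := mul_one r) (N := ⌈4 * r⌉₊) (Nat.le_ceil _)
  have htot := sum_bern (fun i => r * ζ i)
  have hex : ∃ Z : Finset V, (¬ ∃ S ∈ fam, Disjoint S Z) ∧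
      (B0.filter (fun u => u ∈ Z)).card ≤ ⌈4 * r⌉₊ := by
    by_contra hcon
    push Not at hcon
    have hcover : ∑ Z : Finset V, bern (fun i => r * ζ i) Z ≤
        ∑ Z ∈ (Finset.univ : Finset (Finset V)).filter
          (fun Z => ∃ S ∈ fam, Disjoint S Z), bern (fun i => r * ζ i) Z +
        ∑ Z ∈ (Finset.univ : Finset (Finset V)).filter
          (fun Z => ¬ (B0.filter (fun u => u ∈ Z)).card ≤ ⌈4 * r⌉₊),
          bern (fun i => r * ζ i) Z := by
      rw [Finset.sum_filter, Finset.sum_filter, ← Finset.sum_add_distrib]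
      refine Finset.sum_le_sum fun Z _ => ?_
      have hb : 0 ≤ bern (fun i => r * ζ i) Z := bern_nonneg hp0 hz1 Z
      by_cases h3 : ∃ S ∈ fam, Disjoint S Z
      · rw [if_pos h3]
        split_ifs <;> linarith
      · rw [if_neg h3]
        have h4 : ¬ (B0.filter (fun u => u ∈ Z)).card ≤ ⌈4 * r⌉₊ := by
          rw [not_le]
          refine hcon Z ?_
          intro S hS hd
          exact h3 ⟨S, hS, hd⟩
        rw [if_pos h4]
        linarith
    linarith
  obtain ⟨Z, hZ1, hZ2⟩ := hex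
  refine ⟨Hv ∪ B0.filter (fun u => u ∈ Z), ?_, ?_⟩
  · refine (Finset.card_union_le _ _).trans (add_le_add ?_ hZ2)
    have h3 : (Hv.card : ℝ) * (1 / r) ≤ 1 := by
      calc (Hv.card : ℝ) * (1 / r) = ∑ _v ∈ Hv, 1 / r := by
            rw [Finset.sum_const, nsmul_eq_mul]
        _ ≤ ∑ v ∈ Hv, l v := Finset.sum_le_sum fun v hv => (Finset.mem_filter.mp hv).2
        _ ≤ ∑ v, l v := Finset.sum_le_sum_of_subset_of_nonneg (Finset.subset_univ _)
            fun v _ _ => hl v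
        _ ≤ 1 := hl1
    have h4 : (Hv.card : ℝ) ≤ r := by
      rw [mul_one_div, div_le_one hrpos] at h3
      exact h3
    have h5 : ((Hv.card : ℕ) : ℝ) ≤ (⌈r⌉₊ : ℝ) := h4.trans (Nat.le_ceil _)
    exact_mod_cast h5
  · intro S hS hSe
    by_cases hSH : ∃ q ∈ Hv, q ∈ S
    · obtain ⟨q, hq, hqS⟩ := hSH
      exact ⟨q, Finset.mem_union_left _ hq, hqS⟩
    push Not at hSH
    have hSB : S ⊆ B0 := by
      intro v hv
      refine Finset.mem_filter.mpr ⟨Finset.mem_univ _, fun h => ?_⟩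
      exact hSH v (Finset.mem_filter.mpr ⟨Finset.mem_univ _, h⟩) hv
    have h1 : S ∩ B0 = S := Finset.inter_eq_left.mpr hSB
    have h2 : ∑ i ∈ S, ζ i = ∑ i ∈ S, l i := by
      refine Finset.sum_congr rfl fun i hi => ?_
      simp only [hζ]
      rw [if_pos (hSB hi)]
    have h8 : S ∈ fam := by
      refine Finset.mem_filter.mpr ⟨Finset.mem_image.mpr ⟨S, hS, h1⟩, ?_⟩
      rw [h2]
      linarith
    have h9 : ¬ Disjoint S Z := fun h => hZ1 ⟨_, h8, h⟩
    obtain ⟨q, hq1, hq2⟩ := Finset.not_disjoint_iff.mp h9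
    exact ⟨q, Finset.mem_union_right _ (Finset.mem_filter.mpr ⟨hSB hq1, hq2⟩), hq1⟩

/-- The number of traces of the neighbourhoods. -/
lemma traces {V : Type} [Fintype V] {G : SimpleGraph V} {D : ℕ} (hG : VC G D) (T : Finset V) :
    ((Finset.univ : Finset V).image (fun v => nb G T v)).card ≤ (T.card + 1) ^ D := by
  refine (sauer _ T ?_ D ?_).trans (sum_choose_le _ _)
  · intro A hA
    obtain ⟨v, _, rfl⟩ := Finset.mem_image.mp hA
    exact nb_subset v
  · intro T' hT'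
    by_contra hcon
    push Not at hcon
    obtain ⟨R, hR, hne⟩ := hG T' hcon
    obtain ⟨A, hA, hTA⟩ := hT'.exists_superset
    obtain ⟨v0, _, rfl⟩ := Finset.mem_image.mp hA
    have hTT : T' ⊆ T := hTA.trans (nb_subset v0)
    obtain ⟨B, hB, hTB⟩ := hT' hR
    obtain ⟨v, _, rfl⟩ := Finset.mem_image.mp hB
    refine hne v ?_
    rw [← hTB]
    ext u
    rw [mem_nb, Finset.mem_inter, mem_nb]
    exact ⟨fun h => ⟨h.1, hTT h.1, h.2⟩, fun h => ⟨h.1, h.2.2⟩⟩

/-- The vertices which distinguish `x` and `x'`. -/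
noncomputable def sd {V : Type} [Fintype V] (G : SimpleGraph V) (x x' : V) : Finset V :=
  Finset.univ.filter (fun v => ¬ (G.Adj x v ↔ G.Adj x' v))

lemma mem_sd {V : Type} [Fintype V] {G : SimpleGraph V} {x x' v : V} :
    v ∈ sd G x x' ↔ ¬ (G.Adj x v ↔ G.Adj x' v) := by
  simp [sd]

/-- Symmetric differences of neighbourhoods shatter only small sets. -/
lemma sd_shatter {V : Type} [Fintype V] {G : SimpleGraph V} {D m : ℕ} (hG : VC G D)
    (hm : 1 * (m + 1) ^ (2 * D) < 2 ^ m) (T : Finset V) (hT : m ≤ T.card) :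
    ¬ ((Finset.univ : Finset (V × V)).image (fun p => sd G p.1 p.2)).Shatters T := by
  intro hsh
  obtain ⟨T0, hT0, hcard⟩ := Finset.exists_subset_card_eq hT
  set tr : Finset (Finset V) := (Finset.univ : Finset V).image (fun v => nb G T0 v) with htr
  have h1 : tr.card ≤ (m + 1) ^ D := by
    have := traces hG T0
    rwa [hcard] at this
  have h2 : T0.powerset ⊆ (tr ×ˢ tr).image (fun p => symmDiff p.1 p.2) := by
    intro R hR
    have hR0 : R ⊆ T0 := Finset.mem_powerset.mp hR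
    obtain ⟨A, hA, hTA⟩ := hsh (hR0.trans hT0)
    obtain ⟨⟨x, x'⟩, _, rfl⟩ := Finset.mem_image.mp hA
    refine Finset.mem_image.mpr ⟨(nb G T0 x, nb G T0 x'), ?_, ?_⟩
    · exact Finset.mem_product.mpr ⟨Finset.mem_image.mpr ⟨x, Finset.mem_univ _, rfl⟩,
        Finset.mem_image.mpr ⟨x', Finset.mem_univ _, rfl⟩⟩
    · ext u
      have hu : u ∈ R ↔ u ∈ T ∧ u ∈ sd G x x' := by
        rw [← hTA]
        exact Finset.mem_inter
      rw [mem_sd] at hu
      simp only [Finset.mem_symmDiff, mem_nb]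
      constructor
      · rintro (⟨⟨h3, h4⟩, h5⟩ | ⟨⟨h3, h4⟩, h5⟩)
        · refine hu.mpr ⟨hT0 h3, fun h6 => h5 ⟨h3, h6.mp h4⟩⟩
        · refine hu.mpr ⟨hT0 h3, fun h6 => h5 ⟨h3, h6.mpr h4⟩⟩
      · intro h3
        have h4 := hR0 h3
        have h5 := (hu.mp h3).2
        by_cases h6 : G.Adj x u
        · left
          refine ⟨⟨h4, h6⟩, fun h7 => h5 ⟨fun _ => h7.2, fun _ => h6⟩⟩
        · right
          have h7 : G.Adj x' u := by
            by_contra h8
            exact h5 ⟨fun h => absurd h h6, fun h => absurd h h8⟩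
          exact ⟨⟨h4, h7⟩, fun h8 => h6 h8.2⟩
  have h3 := (Finset.card_le_card h2).trans Finset.card_image_le
  rw [Finset.card_powerset, hcard, Finset.card_product] at h3
  have h4 : tr.card * tr.card ≤ (m + 1) ^ D * (m + 1) ^ D := Nat.mul_le_mul h1 h1
  have h5 : (m + 1) ^ (2 * D) = (m + 1) ^ D * (m + 1) ^ D := by
    rw [two_mul, pow_add]
  rw [one_mul, h5] at hm
  omega

end HauAux

open HauAux in
theorem stHau : StHau := by
  intro D e he
  obtain ⟨m, hm⟩ := exists_m 1 (2 * D)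
  obtain ⟨t, ht⟩ := netFam m e he
  refine ⟨2 ^ t, ?_⟩
  intro V _ G hG l hl hl1 X hX
  obtain ⟨Q, hQt, hQ⟩ := ht V ((Finset.univ : Finset (V × V)).image (fun p => sd G p.1 p.2)) l hl
    hl1 (fun T hT => sd_shatter hG hm T hT)
  have hinj : ∀ x ∈ X, ∀ x' ∈ X, nb G Q x = nb G Q x' → x = x' := by
    intro x hx x' hx' hxx
    by_contra hne
    obtain ⟨q, hq, hqs⟩ := hQ (sd G x x')
      (Finset.mem_image.mpr ⟨(x, x'), Finset.mem_univ _, rfl⟩) (hX x hx x' hx' hne)
    rw [mem_sd] at hqs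
    refine hqs ⟨fun h => ?_, fun h => ?_⟩
    · have h1 : q ∈ nb G Q x := mem_nb.mpr ⟨hq, h⟩
      rw [hxx] at h1
      exact (mem_nb.mp h1).2
    · have h1 : q ∈ nb G Q x' := mem_nb.mpr ⟨hq, h⟩
      rw [← hxx] at h1
      exact (mem_nb.mp h1).2
  have h1 : X.card ≤ Q.powerset.card := by
    refine Finset.card_le_card_of_injOn (fun x => nb G Q x) ?_ ?_
    · intro x _
      exact Finset.mem_coe.mpr (Finset.mem_powerset.mpr (nb_subset x))
    · intro x hx x' hx' h
      exact hinj x hx x' hx' h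
  rw [Finset.card_powerset] at h1
  exact h1.trans (Nat.pow_le_pow_right (by norm_num) hQt)

end Pool.Agent.Lib.GIT
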