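import Pool.Agent.Lib.GIT.Stmts
import Pool.Agent.Lib.FracGS.PickZ
import Pool.Agent.Lib.FracGS.Net

/-!
# Module `Net`: epsilon-nets
-/

set_option autoImplicit false

namespace Pool.Agent.Lib.GIT

open Finset Classical
open Pool.Agent.Lib.FracGS (nb wnb om pat bern mem_nb nb_subset nb_mono sum_bern bern_nonneg)

namespace NetG

variable {V : Type} [Fintype V]

/-- The number of vertices of large mass is bounded. -/
lemma card_heavy {l : V → ℝ} (hl : ∀ v, 0 ≤ l v) (hl1 : ∑ v, l v ≤ 1) {θ : ℝ} (hθ : 0 < θ) :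
    ((Finset.univ.filter (fun v => θ ≤ l v)).card : ℝ) ≤ 1 / θ := by
  rw [le_div_iff₀ hθ]
  calc ((Finset.univ.filter (fun v => θ ≤ l v)).card : ℝ) * θ
      = ∑ v ∈ Finset.univ.filter (fun v => θ ≤ l v), θ := by
        rw [Finset.sum_const, nsmul_eq_mul]
    _ ≤ ∑ v ∈ Finset.univ.filter (fun v => θ ≤ l v), l v :=
        Finset.sum_le_sum fun v hv => (Finset.mem_filter.mp hv).2
    _ ≤ ∑ v, l v := Finset.sum_le_sum_of_subset_of_nonneg (Finset.filter_subset _ _)
        fun v _ _ => hl v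
    _ ≤ 1 := hl1

end NetG

open NetG in
theorem stNet : StNet := by
  intro D e he
  obtain ⟨r, hr1, hnet⟩ := FracGS.stNet D (e / 2) (by positivity)
  have hrpos : 0 < r := by linarith
  set θ : ℝ := 1 / r with hθ
  have hθ0 : 0 < θ := by positivity
  refine ⟨⌈1 / θ⌉₊ + ⌈4 * r⌉₊, ?_⟩
  intro V _ G hVC l hl hl1
  set Hv : Finset V := Finset.univ.filter (fun v => θ ≤ l v) with hHv
  set B0 : Finset V := Finset.univ.filter (fun v => ¬ θ ≤ l v ∧ l v ≠ 0) with hB0
  set ζ : V → ℝ := fun v => if v ∈ B0 then l v else 0 with hζ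
  set fam : Finset (Finset V) := ((Finset.univ : Finset V).image (fun v => nb G B0 v)).filter
    (fun S => e / 2 < ∑ i ∈ S, ζ i) with hfam
  have hz0 : ∀ i, 0 ≤ ζ i := by
    intro i
    simp only [hζ]
    split_ifs
    · exact hl i
    · exact le_rfl
  have hz1 : ∀ i, r * ζ i ≤ 1 := by
    intro i
    simp only [hζ]
    split_ifs with hi
    · have h3 : l i < θ := not_le.mp (Finset.mem_filter.mp hi).2.1
      have h5 := mul_le_mul_of_nonneg_left h3.le hrpos.le
      rw [hθ, mul_one_div_cancel hrpos.ne'] at h5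
      exact h5
    · rw [mul_zero]
      exact zero_le_one
  have hzl : ∀ i, ζ i ≤ l i := by
    intro i
    simp only [hζ]
    split_ifs
    · exact le_rfl
    · exact hl i
  have hU : ∑ i ∈ B0, ζ i ≤ 1 := by
    calc ∑ i ∈ B0, ζ i ≤ ∑ i ∈ B0, l i := Finset.sum_le_sum fun i _ => hzl i
      _ ≤ ∑ i, l i := Finset.sum_le_sum_of_subset_of_nonneg (Finset.subset_univ _)
          fun i _ _ => hl i
      _ ≤ 1 := hl1
  have hp0 : ∀ i, 0 ≤ r * ζ i := fun i => mul_nonneg hrpos.le (hz0 i)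
  have hA := hnet V ζ B0 fam hz0 hz1 hU (by
    intro S hS
    obtain ⟨hS1, hS2⟩ := Finset.mem_filter.mp hS
    obtain ⟨v, _, rfl⟩ := Finset.mem_image.mp hS1
    exact ⟨nb_subset v, hS2⟩) (by
    intro T hTB hcard hsh
    obtain ⟨T', hT', hne⟩ := hVC T hcard
    obtain ⟨S, hS, hTS⟩ := hsh hT'
    obtain ⟨hS1, _⟩ := Finset.mem_filter.mp hS
    obtain ⟨v, _, rfl⟩ := Finset.mem_image.mp hS1
    refine hne v ?_
    rw [← hTS]
    ext u
    rw [mem_nb, Finset.mem_inter, mem_nb]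
    exact ⟨fun hu => ⟨hu.1, hTB hu.1, hu.2⟩, fun hu => ⟨hu.1, hu.2.2⟩⟩)
  have hB := FracGS.PickZAux.markov (p := fun i => r * ζ i) hp0 hz1 B0 (r := r) (by
    rw [← Finset.mul_sum]
    calc r * ∑ i ∈ B0, ζ i ≤ r * 1 := mul_le_mul_of_nonneg_left hU hrpos.le
      _ = r := mul_one r) (N := ⌈4 * r⌉₊) (Nat.le_ceil _)
  have htot := sum_bern (fun i => r * ζ i)
  -- a good outcome
  have hex : ∃ Z : Finset V, (¬ ∃ S ∈ fam, Disjoint S Z) ∧
      (B0.filter (fun u => u ∈ Z)).card ≤ ⌈4 * r⌉₊ := by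
    by_contra hcon
    push Not at hcon
    have hcover : ∑ Z : Finset V, bern (fun i => r * ζ i) Z ≤
        ∑ Z ∈ (Finset.univ : Finset (Finset V)).filter
          (fun Z => ∃ S ∈ fam, Disjoint S Z), bern (fun i => r * ζ i) Z +
        ∑ Z ∈ (Finset.univ : Finset (Finset V)).filter
          (fun Z => ¬ (B0.filter (fun u => u ∈ Z)).card ≤ ⌈4 * r⌉₊),
          bern (fun i => r * ζ i) Z := by
      rw [Finset.sum_filter, Finset.sum_filter, ← Finset.sum_add_distrib]
      refine Finset.sum_le_sum fun Z _ => ?_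
      have hb : 0 ≤ bern (fun i => r * ζ i) Z := bern_nonneg hp0 hz1 Z
      by_cases h3 : ∃ S ∈ fam, Disjoint S Z
      · rw [if_pos h3]
        split_ifs <;> linarith
      · rw [if_neg h3]
        have h4 : ¬ (B0.filter (fun u => u ∈ Z)).card ≤ ⌈4 * r⌉₊ := by
          rw [not_le]
          refine hcon Z ?_
          intro S hS hd
          exact h3 ⟨S, hS, hd⟩
        rw [if_pos h4]
        linarith
    linarith
  obtain ⟨Z, hZ1, hZ2⟩ := hex
  refine ⟨Hv ∪ B0.filter (fun u => u ∈ Z), ?_, ?_, ?_⟩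
  · intro q hq
    rcases Finset.mem_union.mp hq with hq | hq
    · have h3 := (Finset.mem_filter.mp hq).2
      exact (lt_of_lt_of_le hθ0 h3).ne'
    · exact (Finset.mem_filter.mp (Finset.mem_filter.mp hq).1).2.2
  · refine (Finset.card_union_le _ _).trans (add_le_add ?_ hZ2)
    have h3 := card_heavy hl hl1 hθ0
    have h4 : ((Hv.card : ℕ) : ℝ) ≤ (⌈1 / θ⌉₊ : ℝ) := h3.trans (Nat.le_ceil _)
    exact_mod_cast h4
  · intro v hv
    by_cases hnH : ∃ q ∈ Hv, G.Adj v q
    · obtain ⟨q, hq, hvq⟩ := hnH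
      exact ⟨q, Finset.mem_union_left _ hq, hvq⟩
    push Not at hnH
    have h5 : wnb G Finset.univ l v = ∑ u ∈ nb G B0 v, ζ u := by
      have h6 : nb G B0 v ⊆ nb G Finset.univ v := nb_mono (Finset.subset_univ _) v
      unfold wnb
      rw [← Finset.sum_subset h6]
      · refine Finset.sum_congr rfl fun u hu => ?_
        simp only [hζ]
        rw [if_pos (mem_nb.mp hu).1]
      · intro u hu hu2
        by_contra h0
        refine hu2 (mem_nb.mpr ⟨Finset.mem_filter.mpr ⟨Finset.mem_univ _, ?_, h0⟩,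
          (mem_nb.mp hu).2⟩)
        intro h7
        exact hnH u (Finset.mem_filter.mpr ⟨Finset.mem_univ _, h7⟩) (mem_nb.mp hu).2
    rw [h5] at hv
    have h7 : e / 2 < ∑ u ∈ nb G B0 v, ζ u := by linarith
    have h8 : nb G B0 v ∈ fam := Finset.mem_filter.mpr
      ⟨Finset.mem_image.mpr ⟨v, Finset.mem_univ _, rfl⟩, h7⟩
    have h9 : ¬ Disjoint (nb G B0 v) Z := fun h => hZ1 ⟨_, h8, h⟩
    obtain ⟨q, hq1, hq2⟩ := Finset.not_disjoint_iff.mp h9
    obtain ⟨hq3, hq4⟩ := mem_nb.mp hq1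
    exact ⟨q, Finset.mem_union_right _ (Finset.mem_filter.mpr ⟨hq3, hq2⟩), hq4⟩

end Pool.Agent.Lib.GIT
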