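import Pool.Agent.Lib.GIT.Defs
import Pool.Agent.Lib.ILT.Defs
import Pool.Agent.Lib.FGF.Stmts2

/-!
# Integral tools for graphs without an induced tree: statements of the modules
-/

set_option autoImplicit false

namespace Pool.Agent.Lib.GIT

open Finset Classical
open Pool.Agent.Lib.FracGS (nb wnb om pat)
open Pool.Agent.Lib.GSR3 (Stab)
open Pool.Agent.Lib.GSR5 (Law pr)

/-! ### Random homomorphisms -/

/-- Module `HL`: the law of the random homomorphism of a tree; `c` is the neighbour of `a` on the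
path from `a` to `b`. -/
def StHL : Prop :=
  ∀ (V : Type) [Fintype V] (w : V → V → ℝ) (par : ℕ → ℕ) (n : ℕ),
    (∀ j, 1 ≤ j → par j < j) → (∀ u v, 0 ≤ w u v) → (∀ u v, w u v = w v u) →
    ∑ u, ∑ v, w u v = 1 →
      (∀ φ : Fin (n + 1) → V, 0 ≤ hl w par n φ) ∧
      ∑ φ : Fin (n + 1) → V, hl w par n φ = 1 ∧
      (∀ φ : Fin (n + 1) → V, hl w par n φ ≠ 0 → ∀ j, 1 ≤ j → j ≤ n →
        w (ev φ (par j)) (ev φ j) ≠ 0) ∧
      (∀ φ : Fin (n + 1) → V, hl w par n φ ≠ 0 → ∑ v, w (ev φ 0) v ≠ 0) ∧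
      (∀ j ≤ n, ∀ F : V → ℝ, ∑ φ : Fin (n + 1) → V, hl w par n φ * F (ev φ j) =
        ∑ u, (∑ v, w u v) * F u) ∧
      (∀ a ≤ n, ∀ b ≤ n, a ≠ b → ∃ c ≤ n, c ≠ a ∧ TA par a c ∧ ∀ g : V → V → V → ℝ,
        ∑ φ : Fin (n + 1) → V, hl w par n φ * g (ev φ b) (ev φ c) (ev φ a) =
          ∑ φ : Fin (n + 1) → V, hl w par n φ *
            ∑ v, kr w (ev φ c) v * g (ev φ b) (ev φ c) v)

/-- Module `HL2`: the values at two nodes which are not adjacent are less correlated than two mates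
(may assume `StHL`). -/
def StHL2 : Prop :=
  ∀ (V : Type) [Fintype V] (w : V → V → ℝ) (par : ℕ → ℕ) (n : ℕ),
    (∀ j, 1 ≤ j → par j < j) → (∀ u v, 0 ≤ w u v) → (∀ u v, w u v = w v u) →
    ∑ u, ∑ v, w u v = 1 → ∀ a ≤ n, ∀ b ≤ n, a ≠ b → ¬ TA par a b → ∀ g : V → ℝ, (∀ v, 0 ≤ g v) →
      ∑ φ : Fin (n + 1) → V, hl w par n φ * (g (ev φ a) * g (ev φ b)) ≤
        ∑ u, (∑ v, w u v) * (∑ v, kr w u v * g v) ^ 2

/-- Module `Hom`: an induced tree from edge weights (may assume `StHL`). -/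
def StHom : Prop :=
  ∀ (par : ℕ → ℕ) (n : ℕ), (∀ j, 1 ≤ j → par j < j) → ∃ e : ℝ, 0 < e ∧ ∀ (V : Type) [Fintype V]
    (G : SimpleGraph V) (J I : Finset V) (w : V → V → ℝ), EW G J I w e →
      Nonempty (pat par n ↪g G)

/-- Module `Hom2`: an induced tree from edge weights inside a window (may assume `StHL`,
`StHL2`). -/
def StHom2 : Prop :=
  ∀ (par : ℕ → ℕ) (n : ℕ), (∀ j, 1 ≤ j → par j < j) → ∀ K K' : ℝ, 1 ≤ K → 1 ≤ K' →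
    ∃ e : ℝ, 0 < e ∧ ∀ (V : Type) [Fintype V] (G : SimpleGraph V) (J I : Finset V)
      (w : V → V → ℝ) (r : V → ℝ) (a : ℝ), 0 < a → EW2 G J I w r a K K' e e e →
        Nonempty (pat par n ↪g G)

/-! ### Duality -/

/-- Module `Fk`: strict Farkas lemma. -/
def StFk : Prop :=
  ∀ (E Cn : Type) [Fintype E] [Fintype Cn] (S : Finset E) (m : E → Cn → ℝ),
    (∃ f : E → ℝ, Law f ∧ (∀ i, f i ≠ 0 → i ∈ S) ∧ ∀ c, ∑ i, f i * m i c ≤ 0) ∨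
    (∃ l : Cn → ℝ, (∀ c, 0 ≤ l c) ∧ ∀ i ∈ S, 0 < ∑ c, l c * m i c)

/-- Module `Peel`: stable sides and peeling. -/
def StPeel : Prop :=
  ∀ C e : ℝ, 1 ≤ C → 0 < e → ∃ d : ℝ, 0 < d ∧ ∀ (V : Type) [Fintype V] (G : SimpleGraph V)
    (S : Finset V) (f : V → V → ℝ), Frac G C → (∀ x y, 0 ≤ f x y) →
      (∀ x y, f x y ≠ 0 → y ∈ S ∧ G.Adj x y) → (∃ x y, f x y ≠ 0) →
      (∀ x y, f x y ≤ d * ∑ y', f x y') →
      (∀ q ∈ S, ∀ y ∈ S, q ≠ y → ¬ G.Adj q y →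
        ∑ x ∈ Finset.univ.filter (fun x => G.Adj x q), f x y ≤ d * ∑ x, f x y) →
        ∃ (J I : Finset V) (w : V → V → ℝ), EW G J I w e

/-- Module `Dual`: the clone laws by duality (may assume `StFk`). -/
def StDual : Prop :=
  ∀ (d : ℝ) (L : ℕ), 0 < d → 1 ≤ L → ∀ (V : Type) [Fintype V] (G : SimpleGraph V)
    (S : Finset V),
      (∃ f : V → V → ℝ, (∀ x y, 0 ≤ f x y) ∧ (∀ x y, f x y ≠ 0 → y ∈ S ∧ G.Adj x y) ∧
        (∃ x y, f x y ≠ 0) ∧ (∀ x y, f x y ≤ 1 / L * ∑ y', f x y') ∧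
        (∀ q ∈ S, ∀ y ∈ S, q ≠ y → ¬ G.Adj q y →
          ∑ x ∈ Finset.univ.filter (fun x => G.Adj x q), f x y ≤ d * ∑ x, f x y)) ∨
      ∃ l : V → V → ℝ, Cln G S d L l

/-- Module `Clone`: the exact clone lemma (may assume `StHom`, `StPeel`, `StDual`). -/
def StClone : Prop :=
  ∀ (par : ℕ → ℕ) (n : ℕ) (C : ℝ), (∀ j, 1 ≤ j → par j < j) → 1 ≤ C → ∃ (d : ℝ) (L : ℕ), 0 < d ∧
    ∀ (V : Type) [Fintype V] (G : SimpleGraph V), Frac G C → IsEmpty (pat par n ↪g G) →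
      ∀ S : Finset V, ∃ l : V → V → ℝ, Cln G S d L l

/-! ### Nets -/

/-- Module `VCb`: the VC dimension is bounded. -/
def StVCb : Prop :=
  ∀ (par : ℕ → ℕ) (n : ℕ) (C : ℝ), (∀ j, 1 ≤ j → par j < j) → 1 ≤ C → ∃ D : ℕ,
    ∀ (V : Type) [Fintype V] (G : SimpleGraph V), Frac G C → IsEmpty (pat par n ↪g G) → VC G D

/-- Module `Net`: epsilon-nets. -/
def StNet : Prop :=
  ∀ (D : ℕ) (e : ℝ), 0 < e → ∃ t : ℕ, ∀ (V : Type) [Fintype V] (G : SimpleGraph V), VC G D →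
    ∀ l : V → ℝ, (∀ v, 0 ≤ l v) → ∑ v, l v ≤ 1 →
      ∃ Q : Finset V, (∀ q ∈ Q, l q ≠ 0) ∧ Q.card ≤ t ∧
        ∀ v, e ≤ wnb G Finset.univ l v → ∃ q ∈ Q, G.Adj v q

/-- Module `Hau`: a bounded number of neighbourhoods with large symmetric differences. -/
def StHau : Prop :=
  ∀ (D : ℕ) (e : ℝ), 0 < e → ∃ t : ℕ, ∀ (V : Type) [Fintype V] (G : SimpleGraph V), VC G D →
    ∀ l : V → ℝ, (∀ v, 0 ≤ l v) → ∑ v, l v ≤ 1 → ∀ X : Finset V,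
      (∀ x ∈ X, ∀ x' ∈ X, x ≠ x' →
        e ≤ ∑ v ∈ Finset.univ.filter (fun v => ¬ (G.Adj x v ↔ G.Adj x' v)), l v) → X.card ≤ t

/-- Module `Dich`: a spread law or a bounded cover (may assume `StNet`). -/
def StDich : Prop :=
  ∀ (D : ℕ) (e : ℝ), 0 < e → ∃ t : ℕ, ∀ (V : Type) [Fintype V] (G : SimpleGraph V), VC G D →
    ∀ X Q : Finset V, X.Nonempty →
      (∃ l : V → ℝ, Law l ∧ (∀ x, l x ≠ 0 → x ∈ X) ∧
        ∀ q ∈ Q, wnb G Finset.univ l q + l q ≤ e) ∨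
      (∃ F : Finset V, F ⊆ Q ∧ F.card ≤ t ∧ ∀ x ∈ X, ∃ q ∈ F, x = q ∨ G.Adj x q)

/-- Module `CloneQ`: bounded clone systems (may assume `StClone`, `StVCb`, `StNet`). -/
def StCloneQ : Prop :=
  ∀ (par : ℕ → ℕ) (n : ℕ) (C : ℝ), (∀ j, 1 ≤ j → par j < j) → 1 ≤ C → ∃ t L : ℕ,
    ∀ (V : Type) [Fintype V] (G : SimpleGraph V), Frac G C → IsEmpty (pat par n ↪g G) →
      ∀ S : Finset V, ∃ Q : V → Finset V, ClnQ G S t L Q

/-! ### Polychromatic colourings -/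

/-- Module `Poly`: from clone systems to polychromatic colourings. -/
def StPoly : Prop :=
  ∀ (t L : ℕ) (V : Type) [Fintype V] (G : SimpleGraph V) (S : Finset V) (Q : V → Finset V),
    ClnQ G S t L Q → Poly G S (2 * t + 1) L

/-- Module `PLaw`: the polynomial zero-infinity law. -/
def StPLaw : Prop :=
  ∀ (r L C0 : ℕ) (V : Type) [Fintype V] (G : SimpleGraph V), (∀ S, Poly G S r L) → ZI G L C0 →
    ∀ M, ZI G M (C0 * (r + 1) ^ (Nat.log 2 M + 1))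

/-! ### Labels -/

/-- Module `Maj`: majority colourings of weighted digraphs. -/
def StMaj : Prop :=
  ∀ (Λ : Type) [Fintype Λ] (w : Λ → Λ → ℝ) (q : ℕ), 1 ≤ q → (∀ l l', 0 ≤ w l l') →
    ∃ φ : Λ → Fin q × Fin q, ∀ l,
      ∑ l' ∈ Finset.univ.filter (fun l' => l' ≠ l ∧ φ l' = φ l), w l l' ≤
        1 / q * ∑ l' ∈ Finset.univ.filter (fun l' => l' ≠ l), w l l'

/-- Module `Labl`: the label lemma (may assume `StNet`, `StMaj`). -/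
def StLabl : Prop :=
  ∀ (D : ℕ) (e : ℝ) (B C1 : ℕ), 0 < e → ∃ m : ℕ, ∀ (V : Type) [Fintype V] (G : SimpleGraph V)
    (W : Finset V) (lb : V → V) (ρ : V → V → ℝ), VC G D → ZI G 1 C1 →
      (∀ l v, 0 ≤ ρ l v) → (∀ l, ∑ v, ρ l v ≤ 1) →
      (∀ x ∈ W, e ≤ wnb G Finset.univ (ρ (lb x)) x) →
      (∀ x ∈ W, ∑ z ∈ Finset.univ.filter (fun z =>
        B < ((W.filter (fun x' => x' = z ∨ G.Adj x' z)).image lb).card), ρ (lb x) z ≤ e / 4) →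
        Col G W m

/-! ### Windows -/

/-- Module `Peel2`: stable sides and peeling inside a window. -/
def StPeel2 : Prop :=
  ∀ C K' : ℝ, 1 ≤ C → 1 ≤ K' → ∃ K'' : ℝ, 1 ≤ K'' ∧ ∀ e : ℝ, 0 < e → ∃ d : ℝ, 0 < d ∧
    ∀ (V : Type) [Fintype V] (G : SimpleGraph V) (A : Finset V) (f : V → V → ℝ) (r : V → ℝ)
      (a K ε α : ℝ),
      Frac G C → 0 < a → (∀ v, 0 ≤ r v) →
      (∀ x ∈ A, a ≤ wnb G Finset.univ r x ∧ wnb G Finset.univ r x ≤ K * a) →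
      (∀ y, r y ≤ α * a) → (∀ x y, 0 ≤ f x y) →
      (∀ x y, f x y ≠ 0 → x ∈ A ∧ G.Adj x y) → (∃ x y, f x y ≠ 0) →
      (∀ x ∈ A, ∀ y, f x y ≤ K' * (r y / wnb G Finset.univ r x) * ∑ y', f x y') →
      (∀ x0 ∈ A, ∀ y,
        ∑ x ∈ A.filter (fun x => ε * a ≤ om G Finset.univ r x x0), f x y ≤ d * ∑ x, f x y) →
        ∃ (J I : Finset V) (w : V → V → ℝ), EW2 G J I w r a K K'' ε e α

/-- Module `Dual2`: duality inside a window (may assume `StFk`). -/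
def StDual2 : Prop :=
  ∀ (V : Type) [Fintype V] (G : SimpleGraph V) (A : Finset V) (r : V → ℝ) (a η d ε : ℝ),
    0 < a → 0 < η → 0 < d → (∀ v, 0 ≤ r v) → (∀ x ∈ A, a ≤ wnb G Finset.univ r x) →
      (∃ f : V → V → ℝ, (∀ x y, 0 ≤ f x y) ∧ (∀ x y, f x y ≠ 0 → x ∈ A ∧ G.Adj x y) ∧
        (∃ x y, f x y ≠ 0) ∧
        (∀ x ∈ A, ∀ y, f x y ≤ 1 / η * (r y / wnb G Finset.univ r x) * ∑ y', f x y') ∧
        (∀ x0 ∈ A, ∀ y,
          ∑ x ∈ A.filter (fun x => ε * a ≤ om G Finset.univ r x x0), f x y ≤ d * ∑ x, f x y)) ∨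
      ∃ (b : V → V → ℝ) (Cap : V → Finset V), (∀ y x0, 0 ≤ b y x0) ∧
        (∀ y x0, b y x0 ≠ 0 → x0 ∈ A) ∧ (∀ y, ∑ x0, b y x0 ≤ 1) ∧
        (∀ y, ∀ x ∈ Cap y, x ∈ A ∧ G.Adj x y ∧
          d < ∑ x0 ∈ Finset.univ.filter (fun x0 => ε * a ≤ om G Finset.univ r x x0), b y x0) ∧
        ∀ x ∈ A, ∑ y ∈ (nb G Finset.univ x).filter (fun y => x ∉ Cap y), r y ≤
          η * wnb G Finset.univ r x

/-- Module `Bon`: a cluster has few unlinked vertices. -/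
def StBon : Prop :=
  ∀ K ε d : ℝ, 1 ≤ K → 0 < ε → 0 < d → ∃ (ε' : ℝ) (n0 : ℕ), 0 < ε' ∧ ∀ (V : Type) [Fintype V]
    (G : SimpleGraph V) (A T : Finset V) (r b : V → ℝ) (a : ℝ), 0 < a → (∀ v, 0 ≤ r v) →
      (∀ x ∈ A, wnb G Finset.univ r x ≤ K * a) → (∀ v, 0 ≤ b v) → (∀ v, b v ≠ 0 → v ∈ A) →
      ∑ v, b v ≤ 1 →
      (∀ x ∈ T, d < ∑ x0 ∈ Finset.univ.filter (fun x0 => ε * a ≤ om G Finset.univ r x x0), b x0) →
      (∀ x ∈ T, ∀ x' ∈ T, x ≠ x' → om G Finset.univ r x x' < ε' * a) → T.card ≤ n0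

/-- Module `Win`: window clusters (may assume `StHom2`, `StPeel2`, `StDual2`, `StBon`). -/
def StWin : Prop :=
  ∀ (par : ℕ → ℕ) (n : ℕ) (C K η : ℝ), (∀ j, 1 ≤ j → par j < j) → 1 ≤ C → 1 ≤ K → 0 < η →
    η ≤ 1 → ∃ (ε' α : ℝ) (n0 : ℕ), 0 < ε' ∧ 0 < α ∧ ∀ (V : Type) [Fintype V]
      (G : SimpleGraph V), Frac G C → IsEmpty (pat par n ↪g G) → ∀ (A : Finset V) (r : V → ℝ)
        (a : ℝ), 0 < a → (∀ v, 0 ≤ r v) →
          (∀ x ∈ A, a ≤ wnb G Finset.univ r x ∧ wnb G Finset.univ r x ≤ K * a) →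
          (∀ y, r y ≤ α * a) → ∃ Cap : V → Finset V, Clu G A r a η ε' n0 Cap

/-- Module `Lin`: linear nets (may assume `StWin`, `StNet`, `StVCb`). -/
def StLin : Prop :=
  ∀ (par : ℕ → ℕ) (n : ℕ) (C : ℝ), (∀ j, 1 ≤ j → par j < j) → 1 ≤ C → ∃ L : ℝ, 0 < L ∧
    ∀ (V : Type) [Fintype V] (G : SimpleGraph V), Frac G C → IsEmpty (pat par n ↪g G) →
      ∀ (r : V → ℝ) (a : ℝ), 0 < a → (∀ v, 0 ≤ r v) → ∑ v, r v ≤ 1 →
        ∃ S : Finset V, (∀ s ∈ S, r s ≠ 0) ∧ (S.card : ℝ) * a ≤ L ∧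
          ∀ x, a ≤ wnb G Finset.univ r x → ∃ s ∈ S, G.Adj x s

/-! ### The class -/

/-- Module `FrC`: the fractional theorem in the form `Frac`. -/
def StFrC : Prop :=
  ∀ (par : ℕ → ℕ) (n k : ℕ), (∀ j, 1 ≤ j → par j < j) → ∃ C : ℝ, 1 ≤ C ∧ ∀ (V : Type)
    [Fintype V] (G : SimpleGraph V), G.CliqueFree k → IsEmpty (pat par n ↪g G) → Frac G C

/-- Module `ZIc`: the two forms of the law. -/
def StZIc : Prop :=
  ∀ (V : Type) [Fintype V] (G : SimpleGraph V) (M C : ℕ), ILT.Law G M C → ZI G M C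

end Pool.Agent.Lib.GIT
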